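import Pool.Agent.TH198.AT.Conv
import Pool.Agent.TH479.AT.STEIN

/-!
# No positive solution of the fixed point equation for `h = 0`, `2 β² ≤ 1`
-/

set_option autoImplicit false

open MeasureTheory ProbabilityTheory Set Filter Topology

namespace Pool.Agent.TH89.AT

open Pool.TH198.AT

theorem tanh_lt {x : ℝ} (hx : 0 < x) : Real.tanh x < x := by
  obtain ⟨c, hc, h⟩ := exists_hasDerivAt_eq_slope Real.sinh Real.cosh hx
    Real.continuous_sinh.continuousOn (fun y _ => Real.hasDerivAt_sinh y)
  rw [Real.sinh_zero, sub_zero, sub_zero, eq_div_iff hx.ne'] at h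
  have h1 : Real.cosh c < Real.cosh x := by
    rw [Real.cosh_lt_cosh, abs_of_pos hc.1, abs_of_pos hx]
    exact hc.2
  rw [Real.tanh_eq_sinh_div_cosh, div_lt_iff₀ (Real.cosh_pos x), ← h, mul_comm]
  exact mul_lt_mul_of_pos_left h1 hx

theorem tanh_nonneg {x : ℝ} (hx : 0 ≤ x) : 0 ≤ Real.tanh x := by
  rw [Real.tanh_eq_sinh_div_cosh]
  exact div_nonneg (Real.sinh_nonneg_iff.2 hx) (Real.cosh_pos x).le

theorem tanh_sq_lt {x : ℝ} (hx : x ≠ 0) : Real.tanh x ^ 2 < x ^ 2 := by
  have key : ∀ y : ℝ, 0 < y → Real.tanh y ^ 2 < y ^ 2 := fun y hy => by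
    have h1 := tanh_lt hy
    have h2 := tanh_nonneg hy.le
    nlinarith
  rcases lt_or_gt_of_ne hx with h | h
  · have := key (-x) (by linarith)
    rw [Real.tanh_neg] at this
    nlinarith
  · exact key x h

theorem tanh_sq_le (x : ℝ) : Real.tanh x ^ 2 ≤ x ^ 2 := by
  rcases eq_or_ne x 0 with rfl | h
  · simp
  · exact (tanh_sq_lt h).le

theorem continuous_tanh : Continuous Real.tanh := by
  have h : Real.tanh = fun x => Real.sinh x / Real.cosh x :=
    funext fun x => Real.tanh_eq_sinh_div_cosh x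
  rw [h]
  exact Real.continuous_sinh.div Real.continuous_cosh fun x => (Real.cosh_pos x).ne'

theorem E1_sq : E1 (fun z => z * z) = 1 := by
  have h := Pool.TH479.AT.t_STEIN (fun z => z) (fun _ => 1) 1 1 (fun x => hasDerivAt_id x)
    continuous_const (fun x => by
      have h1 := Real.add_one_le_exp |x|
      rw [one_mul, one_mul]
      linarith) (fun x => by
      have h1 := Real.add_one_le_exp |x|
      have h2 := abs_nonneg x
      rw [one_mul, one_mul, abs_one]
      linarith)
  rw [h]
  unfold E1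
  simp

theorem integrable_sq : Integrable (fun z : ℝ => z * z) (gaussianReal 0 1) := by
  have h := (memLp_id_gaussianReal (μ := 0) (v := 1) 2).integrable_sq
  refine h.congr (Eventually.of_forall fun z => ?_)
  simp only [id]
  ring

theorem t_ZERO : St_ZERO := by
  intro β q hβ hb hq
  set s : ℝ := √(2 * β ^ 2 * q) with hs
  have hpos : 0 < 2 * β ^ 2 * q := by positivity
  have hs0 : 0 < s := Real.sqrt_pos.2 hpos
  have hs2 : s ^ 2 = 2 * β ^ 2 * q := Real.sq_sqrt hpos.le
  have i1 : Integrable (fun z : ℝ => s ^ 2 * (z * z)) (gaussianReal 0 1) :=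
    integrable_sq.const_mul _
  have hc : Continuous (fun z : ℝ => Real.tanh (0 + s * z) ^ 2) :=
    (continuous_tanh.comp (continuous_const.add (continuous_const.mul continuous_id))).pow 2
  have i2 : Integrable (fun z : ℝ => Real.tanh (0 + s * z) ^ 2) (gaussianReal 0 1) := by
    refine i1.mono' hc.aestronglyMeasurable (Eventually.of_forall fun z => ?_)
    rw [Real.norm_eq_abs, abs_of_nonneg (sq_nonneg _)]
    have := tanh_sq_le (0 + s * z)
    calc Real.tanh (0 + s * z) ^ 2 ≤ (0 + s * z) ^ 2 := this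
      _ = s ^ 2 * (z * z) := by ring
  have h1 : 0 < ∫ z, (s ^ 2 * (z * z) - Real.tanh (0 + s * z) ^ 2) ∂(gaussianReal 0 1) := by
    refine (integral_pos_iff_support_of_nonneg
      (f := fun z : ℝ => s ^ 2 * (z * z) - Real.tanh (0 + s * z) ^ 2) ?_ (i1.sub i2)).2 ?_
    swap
    · have : NullSingletonClass (gaussianReal 0 1) := nullSingletonClass_gaussianReal one_ne_zero
      have h2 : ({0} : Set ℝ)ᶜ ⊆ Function.support
          (fun z : ℝ => s ^ 2 * (z * z) - Real.tanh (0 + s * z) ^ 2) := by
        intro z hz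
        have hz' : z ≠ 0 := hz
        have h3 : 0 + s * z ≠ 0 := by
          rw [zero_add]
          exact mul_ne_zero hs0.ne' hz'
        have h4 := tanh_sq_lt h3
        have h5 : (0 + s * z) ^ 2 = s ^ 2 * (z * z) := by ring
        rw [h5] at h4
        exact (sub_pos.2 h4).ne'
      refine lt_of_lt_of_le ?_ (measure_mono h2)
      rw [measure_compl (measurableSet_singleton 0) (measure_ne_top _ _), measure_univ,
        measure_singleton]
      simp
    · intro z
      have h4 := tanh_sq_le (0 + s * z)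
      have h5 : (0 + s * z) ^ 2 = s ^ 2 * (z * z) := by ring
      rw [h5] at h4
      exact sub_nonneg.2 h4
  rw [integral_sub i1 i2, integral_const_mul] at h1
  have h6 : ∫ z : ℝ, z * z ∂(gaussianReal 0 1) = 1 := E1_sq
  rw [h6, hs2, mul_one] at h1
  have h7 : 2 * β ^ 2 * q ≤ q := by
    calc 2 * β ^ 2 * q ≤ 1 * q := mul_le_mul_of_nonneg_right hb hq.le
      _ = q := one_mul q
  show (∫ z, Real.tanh (0 + s * z) ^ 2 ∂(gaussianReal 0 1)) < q
  linarith

end Pool.Agent.TH89.AT
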